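import Mathlib

namespace Pool.Agent.Lib.MP_6717ce_co

/-- the Euclidean plane -/
abbrev Plane := EuclideanSpace ℝ (Fin 2)

/-- the closed unit square of the grid with lower left corner `c` -/
def cell (c : ℤ × ℤ) : Set Plane :=
  {p | (c.1 : ℝ) ≤ p 0 ∧ p 0 ≤ c.1 + 1 ∧ (c.2 : ℝ) ≤ p 1 ∧ p 1 ≤ c.2 + 1}

/-- the union of the squares of a finite set of cells -/
def region (S : Finset (ℤ × ℤ)) : Set Plane := ⋃ c ∈ S, cell c

/-- the cells are joined edge to edge -/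
def EdgeConnected (S : Finset (ℤ × ℤ)) : Prop :=
  ∀ c ∈ S, ∀ d ∈ S, Relation.ReflTransGen
    (fun a b : ℤ × ℤ => a ∈ S ∧ b ∈ S ∧ |a.1 - b.1| + |a.2 - b.2| = 1) c d

/-- `R` is an `n`-reptile -/
def IsRep (n : ℕ) (R : Set Plane) : Prop :=
  IsCompact R ∧ closure (interior R) = R ∧ ∃ T : Fin n → Set Plane, ⋃ i, T i = R ∧
    (∀ i j, ∃ φ : Plane ≃ᵢ Plane, φ '' T i = T j) ∧
    (∀ i, ∃ (r : ℝ) (f : Plane → Plane), 0 < r ∧ (∀ x y, dist (f x) (f y) = r * dist x y) ∧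
      f '' R = T i) ∧
    Pairwise fun i j => Disjoint (interior (T i)) (interior (T j))

end Pool.Agent.Lib.MP_6717ce_co
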