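import Pool.Agent.Lib.MP_6717ce_co.Par

/-! Congruent copies of a set of cells along a wall. -/

namespace Pool.Agent.Lib.MP_6717ce_co

open Relation

/-- congruent by a symmetry of the grid -/
def Cg (T T' : Set (ℤ × ℤ)) : Prop :=
  ∃ ε η e f : ℤ, (ε = 1 ∨ ε = -1) ∧ (η = 1 ∨ η = -1) ∧
    ((∀ x y, (x, y) ∈ T ↔ (ε * x + e, η * y + f) ∈ T') ∨
      ∀ x y, (x, y) ∈ T ↔ (ε * y + e, η * x + f) ∈ T')

/-- the bounding box -/
structure Box (T : Set (ℤ × ℤ)) (l r b t : ℤ) : Prop where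
  bd : ∀ p ∈ T, l ≤ p.1 ∧ p.1 ≤ r ∧ b ≤ p.2 ∧ p.2 ≤ t
  L : ∃ y, (l, y) ∈ T
  R : ∃ y, (r, y) ∈ T
  B : ∃ x, (x, b) ∈ T
  U : ∃ x, (x, t) ∈ T

def Sym (T : Set (ℤ × ℤ)) : Prop := ∃ e f : ℤ, ∀ x y, (x, y) ∈ T → (e - x, f - y) ∈ T

variable {S T T' T'' : Set (ℤ × ℤ)} {l r b t l' r' b' t' : ℤ}

theorem Cg.symm (h : Cg T T') : Cg T' T := by
  obtain ⟨ε, η, e, f, h1, h2, h | h⟩ := h
  · refine ⟨ε, η, -ε * e, -η * f, h1, h2, .inl fun x y => ?_⟩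
    rw [h]
    rcases h1 with rfl | rfl <;> rcases h2 with rfl | rfl <;> simp
  · refine ⟨η, ε, -η * f, -ε * e, h2, h1, .inr fun x y => ?_⟩
    rw [h]
    rcases h1 with rfl | rfl <;> rcases h2 with rfl | rfl <;> simp

theorem sg_mul {a b : ℤ} (ha : a = 1 ∨ a = -1) (hb : b = 1 ∨ b = -1) : a * b = 1 ∨ a * b = -1 := by
  rcases ha with rfl | rfl <;> rcases hb with rfl | rfl <;> simp

theorem Cg.trans (h : Cg T T') (h' : Cg T' T'') : Cg T T'' := by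
  obtain ⟨ε, η, e, f, h1, h2, h | h⟩ := h <;> obtain ⟨ε', η', e', f', h3, h4, h' | h'⟩ := h'
  · exact ⟨_, _, ε' * e + e', η' * f + f', sg_mul h3 h1, sg_mul h4 h2, .inl fun x y => by
      rw [h, h']; ring_nf⟩
  · exact ⟨_, _, ε' * f + e', η' * e + f', sg_mul h3 h2, sg_mul h4 h1, .inr fun x y => by
      rw [h, h']; ring_nf⟩
  · exact ⟨_, _, ε' * e + e', η' * f + f', sg_mul h3 h1, sg_mul h4 h2, .inr fun x y => by
      rw [h, h']; ring_nf⟩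
  · exact ⟨_, _, ε' * f + e', η' * e + f', sg_mul h3 h2, sg_mul h4 h1, .inl fun x y => by
      rw [h, h']; ring_nf⟩

theorem Cg.conn (h : Cg T T') (hc : Conn T) : Conn T' := by
  have key : ∀ δ : ℤ × ℤ → ℤ × ℤ, Function.Surjective δ → (∀ p, p ∈ T ↔ δ p ∈ T') →
      (∀ a b, |(δ a).1 - (δ b).1| + |(δ a).2 - (δ b).2| = |a.1 - b.1| + |a.2 - b.2|) → Conn T' := by
    intro δ h1 h2 h3 c hc' d hd
    obtain ⟨c, rfl⟩ := h1 c
    obtain ⟨d, rfl⟩ := h1 d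
    have := hc c ((h2 c).2 hc') d ((h2 d).2 hd)
    clear hd
    induction this with
    | refl => exact .refl
    | tail _ h ih => exact ih.tail ⟨(h2 _).1 h.1, (h2 _).1 h.2.1, (h3 _ _).trans h.2.2⟩
  have ab : ∀ {ε : ℤ}, ε = 1 ∨ ε = -1 → ∀ x y e, |ε * x + e - (ε * y + e)| = |x - y| := by
    rintro _ (rfl | rfl) x y e
    · simp
    · rw [← abs_neg]; ring_nf
  obtain ⟨ε, η, e, f, h1, h2, h | h⟩ := h
  · refine key (fun p => (ε * p.1 + e, η * p.2 + f)) (fun q => ⟨(ε * (q.1 - e), η * (q.2 - f)), ?_⟩)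
      (fun p => h p.1 p.2) fun a b => by simp only [ab h1, ab h2]
    rcases h1 with rfl | rfl <;> rcases h2 with rfl | rfl <;> simp
  · refine key (fun p => (ε * p.2 + e, η * p.1 + f)) (fun q => ⟨(η * (q.2 - f), ε * (q.1 - e)), ?_⟩)
      (fun p => h p.1 p.2) fun a b => by rw [ab h1, ab h2, add_comm]
    rcases h1 with rfl | rfl <;> rcases h2 with rfl | rfl <;> simp

theorem Cg.sym (h : Cg T T') (hs : Sym T) : Sym T' := by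
  obtain ⟨ε, η, e, f, h1, h2, h | h⟩ := h.symm <;> obtain ⟨u, v, hs⟩ := hs
  · refine ⟨ε * (u - 2 * e), η * (v - 2 * f), fun x y hx => (h _ _).2 ?_⟩
    convert hs _ _ ((h x y).1 hx) using 2 <;> rcases h1 with rfl | rfl <;>
      rcases h2 with rfl | rfl <;> ring
  · refine ⟨η * (v - 2 * f), ε * (u - 2 * e), fun x y hx => (h _ _).2 ?_⟩
    convert hs _ _ ((h x y).1 hx) using 2 <;> rcases h1 with rfl | rfl <;>
      rcases h2 with rfl | rfl <;> ring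

theorem Sym.box (h : Sym T) (B : Box T l r b t) {x y : ℤ} (hx : (x, y) ∈ T) :
    (l + r - x, b + t - y) ∈ T := by
  obtain ⟨e, f, h⟩ := h
  obtain ⟨y1, h1⟩ := B.L
  obtain ⟨y2, h2⟩ := B.R
  obtain ⟨x1, h3⟩ := B.B
  obtain ⟨x2, h4⟩ := B.U
  have := B.bd _ (h _ _ h1)
  have := B.bd _ (h _ _ h2)
  have := B.bd _ (h _ _ h3)
  have := B.bd _ (h _ _ h4)
  convert h x y hx using 3 <;> omega

/-- normalised one dimensional map -/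
def nm (s : Bool) (l r l' x : ℤ) : ℤ := cond s (x - l + l') (r - x + l')

theorem one_d {P P' : ℤ → Prop} {ε e : ℤ} (hε : ε = 1 ∨ ε = -1) (h : ∀ x, P x ↔ P' (ε * x + e))
    (h1 : ∀ x, P x → l ≤ x ∧ x ≤ r) (h2 : P l) (h3 : P r) (h4 : ∀ x, P' x → l' ≤ x ∧ x ≤ r')
    (h5 : P' l') (h6 : P' r') : r' - l' = r - l ∧ ∃ s, ∀ x, ε * x + e = nm s l r l' x := by
  have a1 := h4 _ ((h _).1 h2)
  have a2 := h4 _ ((h _).1 h3)
  rcases hε with rfl | rfl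
  · have a3 := h1 (l' - e) ((h _).2 (by simpa using h5))
    have a4 := h1 (r' - e) ((h _).2 (by simpa using h6))
    exact ⟨by omega, true, fun x => by simp only [nm, cond_true]; omega⟩
  · have a3 := h1 (e - l') ((h _).2 (by simpa using h5))
    have a4 := h1 (e - r') ((h _).2 (by simpa using h6))
    exact ⟨by omega, false, fun x => by simp only [nm, cond_false]; omega⟩

theorem Cg.form (h : Cg T T') (B : Box T l r b t) (B' : Box T' l' r' b' t') : ∃ s s' : Bool,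
    (r' - l' = r - l ∧ t' - b' = t - b ∧
      ∀ x y, (x, y) ∈ T ↔ (nm s l r l' x, nm s' b t b' y) ∈ T') ∨
    (r' - l' = t - b ∧ t' - b' = r - l ∧
      ∀ x y, (x, y) ∈ T ↔ (nm s b t l' y, nm s' l r b' x) ∈ T') := by
  have sj : ∀ {ε : ℤ}, ε = 1 ∨ ε = -1 → ∀ e y, ε * (ε * (y - e)) + e = y := by
    rintro _ (rfl | rfl) e y <;> ring
  have p1 : ∀ x, (∃ y, (x, y) ∈ T) → l ≤ x ∧ x ≤ r := fun x ⟨y, h⟩ =>
    ⟨(B.bd _ h).1, (B.bd _ h).2.1⟩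
  have p2 : ∀ y, (∃ x, (x, y) ∈ T) → b ≤ y ∧ y ≤ t := fun x ⟨y, h⟩ => (B.bd _ h).2.2
  have p3 : ∀ x, (∃ y, (x, y) ∈ T') → l' ≤ x ∧ x ≤ r' := fun x ⟨y, h⟩ =>
    ⟨(B'.bd _ h).1, (B'.bd _ h).2.1⟩
  have p4 : ∀ y, (∃ x, (x, y) ∈ T') → b' ≤ y ∧ y ≤ t' := fun x ⟨y, h⟩ => (B'.bd _ h).2.2
  obtain ⟨ε, η, e, f, h1, h2, h | h⟩ := h
  · obtain ⟨a1, s, a2⟩ := one_d (e := e) h1 (fun x => ⟨fun ⟨y, hy⟩ => ⟨_, (h x y).1 hy⟩,
      fun ⟨y, hy⟩ => ⟨η * (y - f), (h _ _).2 (by rwa [sj h2])⟩⟩) p1 B.L B.R p3 B'.L B'.R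
    obtain ⟨a3, s', a4⟩ := one_d (e := f) h2 (fun x => ⟨fun ⟨y, hy⟩ => ⟨_, (h y x).1 hy⟩,
      fun ⟨y, hy⟩ => ⟨ε * (y - e), (h _ _).2 (by rwa [sj h1])⟩⟩) p2 B.B B.U p4 B'.B B'.U
    exact ⟨s, s', .inl ⟨a1, a3, fun x y => by rw [h, a2, a4]⟩⟩
  · obtain ⟨a1, s, a2⟩ := one_d (e := e) h1 (fun x => ⟨fun ⟨y, hy⟩ => ⟨_, (h y x).1 hy⟩,
      fun ⟨y, hy⟩ => ⟨η * (y - f), (h _ _).2 (by rwa [sj h2])⟩⟩) p2 B.B B.U p3 B'.L B'.R
    obtain ⟨a3, s', a4⟩ := one_d (e := f) h2 (fun x => ⟨fun ⟨y, hy⟩ => ⟨_, (h x y).1 hy⟩,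
      fun ⟨y, hy⟩ => ⟨ε * (y - e), (h _ _).2 (by rwa [sj h1])⟩⟩) p1 B.L B.R p4 B'.B B'.U
    exact ⟨s, s', .inr ⟨a1, a3, fun x y => by rw [h, a2, a4]⟩⟩

theorem Cg.box (h : Cg T T') (B : Box T l r b t) : ∃ l' r' b' t', Box T' l' r' b' t' := by
  have key : ∀ {ε : ℤ}, ε = 1 ∨ ε = -1 → ∀ e l r, ∃ l' r', (∀ x, l ≤ ε * x + e → ε * x + e ≤ r →
      l' ≤ x ∧ x ≤ r') ∧ (ε * l' + e = l ∨ ε * l' + e = r) ∧ (ε * r' + e = l ∨ ε * r' + e = r) := by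
    rintro _ (rfl | rfl) e l r
    · exact ⟨l - e, r - e, fun x _ _ => by omega, by omega, by omega⟩
    · exact ⟨e - r, e - l, fun x _ _ => by omega, by omega, by omega⟩
  have sj : ∀ {ε : ℤ}, ε = 1 ∨ ε = -1 → ∀ e y, ε * (ε * (y - e)) + e = y := by
    rintro _ (rfl | rfl) e y <;> ring
  obtain ⟨ε, η, e, f, h1, h2, h⟩ := h.symm
  obtain ⟨l', r', a1, a2, a3⟩ := key h1 e l r
  obtain ⟨b', t', a4, a5, a6⟩ := key h2 f b t
  have q1 : ∀ x, x = l ∨ x = r → ∃ y, (x, η * y + f) ∈ T := by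
    rintro _ (rfl | rfl)
    exacts [B.L.elim fun y hy => ⟨_, by rwa [sj h2]⟩, B.R.elim fun y hy => ⟨_, by rwa [sj h2]⟩]
  have q2 : ∀ x, x = b ∨ x = t → ∃ y, (ε * y + e, x) ∈ T := by
    rintro _ (rfl | rfl)
    exacts [B.B.elim fun y hy => ⟨_, by rwa [sj h1]⟩, B.U.elim fun y hy => ⟨_, by rwa [sj h1]⟩]
  rcases h with h | h
  · refine ⟨l', r', b', t', fun p hp => ?_, (q1 _ a2).imp fun y => (h _ _).2,
      (q1 _ a3).imp fun y => (h _ _).2, (q2 _ a5).imp fun y => (h _ _).2,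
      (q2 _ a6).imp fun y => (h _ _).2⟩
    obtain ⟨c1, c2, c3, c4⟩ := B.bd _ ((h p.1 p.2).1 hp)
    exact ⟨(a1 _ c1 c2).1, (a1 _ c1 c2).2, a4 _ c3 c4⟩
  · refine ⟨b', t', l', r', fun p hp => ?_, (q2 _ a5).imp fun y => (h _ _).2,
      (q2 _ a6).imp fun y => (h _ _).2, (q1 _ a2).imp fun y => (h _ _).2,
      (q1 _ a3).imp fun y => (h _ _).2⟩
    obtain ⟨c1, c2, c3, c4⟩ := B.bd _ ((h p.1 p.2).1 hp)
    exact ⟨(a4 _ c3 c4).1, (a4 _ c3 c4).2, a1 _ c1 c2⟩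

/-- no copy fits in a pocket between a copy and the wall -/
theorem pocket (h : Cg T T') (hc : Conn T) (hd : ∀ p ∈ T', p ∉ T) (B : Box T l r 0 t)
    (h0 : ∀ p ∈ T', 0 ≤ p.2) {x1 x2 x : ℤ} (h1 : (x1, 0) ∈ T) (h2 : (x2, 0) ∈ T)
    (hx : (x, 0) ∈ T') (a1 : x1 < x) (a2 : x < x2) : False := by
  obtain ⟨φ, hφ⟩ := exists_par (hc _ h1 _ h2)
  obtain ⟨l', r', b', t', B'⟩ := h.box B
  have c : ∀ x y, (x, y) ∈ T' → φ x y % 2 = 1 := fun _ _ hp => by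
    have e1 := hφ.const hd h0 (.inl h0) (h.conn hc _ hx _ hp)
    have e2 := hφ.V x (-1) (hd _ (by simpa using hx))
    have e3 := hφ.D x (-1) fun p hp => by have := B.bd p hp; omega
    simp only [neg_add_cancel, true_and, a2, a1.not_gt, if_true, if_false] at e1 e2
    omega
  obtain ⟨y1, g1⟩ := B'.L
  obtain ⟨y2, g2⟩ := B'.R
  obtain ⟨x3, g3⟩ := B'.B
  obtain ⟨x4, g4⟩ := B'.U
  have := h0 _ g3
  have := h0 _ g1
  have := c _ _ g1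
  have := c _ _ g2
  have := c _ _ g4
  have i1 := mt (hφ.L l' y1) (by simp only; split_ifs <;> omega)
  have i2 := mt (hφ.R r' y2) (by omega)
  have i3 := mt (hφ.T x4 t') (by omega)
  push Not at i1 i2 i3
  obtain ⟨p1, j1, _⟩ := i1
  obtain ⟨p2, j2, _⟩ := i2
  obtain ⟨p3, j3, _⟩ := i3
  have := B.bd _ j1
  have := B.bd _ j2
  have := B.bd _ j3
  have := B'.bd _ hx
  obtain ⟨_, _, ⟨_, _, -⟩ | ⟨_, _, -⟩⟩ := h.form B B' <;> omega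

end Pool.Agent.Lib.MP_6717ce_co
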