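import Pool.Agent.Lib.MP_6717ce_co.Rep

/-! Centrally symmetric reptiles and convex reptiles. -/

namespace Pool.Agent.Lib.MP_6717ce_co

open Set

theorem sym_of {S : Set (ℤ × ℤ)} {l r b t : ℤ} (B : Box S l r b t) {o : Plane}
    (h : ∀ p ∈ reg S, o - p ∈ reg S) : Sym S := by
  have bd : ∀ p ∈ reg S, (l : ℝ) ≤ p 0 ∧ p 0 ≤ r + 1 ∧ (b : ℝ) ≤ p 1 ∧ p 1 ≤ t + 1 := fun p hp => by
    obtain ⟨c, hc, h1, h2, h3, h4⟩ := mem_reg.1 hp
    obtain ⟨a1, a2, a3, a4⟩ := B.bd c hc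
    rw [← Int.cast_le (R := ℝ)] at a1 a2 a3 a4
    exact ⟨by linarith, by linarith, by linarith, by linarith⟩
  obtain ⟨y1, g1⟩ := B.L
  obtain ⟨y2, g2⟩ := B.R
  obtain ⟨x1, g3⟩ := B.B
  obtain ⟨x2, g4⟩ := B.U
  have a1 := (bd _ (h !₂[l, y1] (mem_reg.2 ⟨_, g1, by simp [cell]⟩))).2.1
  have a2 := (bd _ (h !₂[r + 1, y2] (mem_reg.2 ⟨_, g2, by simp [cell]⟩))).1
  have a3 := (bd _ (h !₂[x1, b] (mem_reg.2 ⟨_, g3, by simp [cell]⟩))).2.2.2
  have a4 := (bd _ (h !₂[x2, t + 1] (mem_reg.2 ⟨_, g4, by simp [cell]⟩))).2.2.1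
  simp only [PiLp.sub_apply, Matrix.cons_val_zero, Matrix.cons_val_one] at a1 a2 a3 a4
  refine ⟨l + r, b + t, fun x y hx => ctr_reg.1 ?_⟩
  convert h _ (ctr_reg.2 hx) using 1
  ext i
  fin_cases i <;> simp [ctr] <;> linarith

theorem region_rect {a b c d : ℤ} (h1 : a ≤ b) (h2 : c ≤ d) {p : Plane} :
    p ∈ region (Finset.Icc a b ×ˢ Finset.Icc c d) ↔
      (a : ℝ) ≤ p 0 ∧ p 0 ≤ b + 1 ∧ (c : ℝ) ≤ p 1 ∧ p 1 ≤ d + 1 := by
  have one : ∀ {a b : ℤ} {x : ℝ}, a ≤ b → a ≤ x → x ≤ b + 1 →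
      ∃ u : ℤ, (a ≤ u ∧ u ≤ b) ∧ u ≤ x ∧ x ≤ u + 1 := fun {a b x} h h1 h2 =>
    ⟨min ⌊x⌋ b, ⟨le_min (Int.le_floor.2 h1) h, min_le_right _ _⟩, by
      push_cast; exact (min_le_left _ _).trans (Int.floor_le _), by
      push_cast
      rw [← min_add_add_right]
      exact le_min (Int.lt_floor_add_one _).le h2⟩
  rw [region_eq, mem_reg]
  refine ⟨fun ⟨q, hq, a1, a2, a3, a4⟩ => ?_, fun ⟨a1, a2, a3, a4⟩ => ?_⟩
  · simp only [Finset.mem_coe, Finset.mem_product, Finset.mem_Icc, ← Int.cast_le (R := ℝ)] at hq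
    exact ⟨by linarith [hq.1.1], by linarith [hq.1.2], by linarith [hq.2.1], by linarith [hq.2.2]⟩
  · obtain ⟨u, b1, b2, b3⟩ := one h1 a1 a2
    obtain ⟨v, b4, b5, b6⟩ := one h2 a3 a4
    exact ⟨(u, v), by simp [b1, b4], b2, b3, b5, b6⟩

theorem region_compact (S : Finset (ℤ × ℤ)) : IsCompact (region S) :=
  S.isCompact_biUnion fun c _ => Metric.isCompact_of_isClosed_isBounded (cell_closed c)
    ((Metric.isBounded_closedBall (x := ctr c) (r := 1)).subset fun p ⟨h1, h2, h3, h4⟩ => by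
      rw [Metric.mem_closedBall, EuclideanSpace.dist_eq, Real.sqrt_le_one]
      simp only [Fin.sum_univ_two, ctr, Real.dist_eq, sq_abs, Matrix.cons_val_zero,
        Matrix.cons_val_one]
      nlinarith)

theorem region_regular (S : Finset (ℤ × ℤ)) : closure (interior (region S)) = region S :=
  (closure_minimal interior_subset (region_compact S).isClosed).antisymm fun _ hp =>
    let ⟨c, hc, h⟩ := mem_reg.1 hp
    closure_mono (oc_int hc) (cell_sub c h)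

theorem sep {A B : Set Plane} (i : Fin 2) (x : ℝ) (hA : ∀ p ∈ A, p i ≤ x) (hB : ∀ p ∈ B, x ≤ p i) :
    Disjoint (interior A) (interior B) := by
  rw [disjoint_iff_inter_eq_empty, ← interior_inter, ← not_nonempty_iff_eq_empty]
  rintro ⟨p, hp⟩
  obtain ⟨ε, h0, h⟩ := Metric.isOpen_iff.1 isOpen_interior p hp
  have h1 := interior_subset (h (show p + EuclideanSpace.single i (ε / 2) ∈ _ by
    simpa [abs_of_pos h0] using h0))
  have := hA _ h1.1
  have := hB _ (interior_subset hp).2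
  simp only [PiLp.add_apply, PiLp.single_apply, if_true] at *
  linarith

theorem rect_rep {a b c d : ℤ} (h1 : a ≤ b) (h2 : c ≤ d) :
    IsRep 4 (region (Finset.Icc a b ×ˢ Finset.Icc c d)) := by
  let s : Fin 4 → ℝ := ![a, b + 1, a, b + 1]
  let t : Fin 4 → ℝ := ![c, c, d + 1, d + 1]
  let f : Fin 4 → Plane → Plane := fun i p => (1 / 2 : ℝ) • p + !₂[s i / 2, t i / 2]
  have m : ∀ i p, p ∈ f i '' region (Finset.Icc a b ×ˢ Finset.Icc c d) ↔ (a : ℝ) ≤ 2 * p 0 - s i ∧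
      2 * p 0 - s i ≤ b + 1 ∧ (c : ℝ) ≤ 2 * p 1 - t i ∧ 2 * p 1 - t i ≤ d + 1 := fun i p => by
    refine ⟨?_, fun h => ⟨!₂[2 * p 0 - s i, 2 * p 1 - t i], (region_rect h1 h2).2 h, ?_⟩⟩
    · rintro ⟨p, hp, rfl⟩
      have e : 2 * f i p 0 - s i = p 0 ∧ 2 * f i p 1 - t i = p 1 := by
        constructor <;> simp [f] <;> ring
      rw [e.1, e.2]
      exact (region_rect h1 h2).1 hp
    · ext j
      fin_cases j <;> simp [f] <;> ring
  have k1 : (a : ℝ) ≤ b := Int.cast_le.2 h1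
  have k2 : (c : ℝ) ≤ d := Int.cast_le.2 h2
  refine ⟨region_compact _, region_regular _, fun i => f i '' region _, Set.ext fun p => ?_,
    fun i j => ⟨IsometryEquiv.addRight (!₂[s j / 2, t j / 2] - !₂[s i / 2, t i / 2]), ?_⟩,
    fun i => ⟨1 / 2, f i, by norm_num, fun x y => by simp [f, dist_smul₀], rfl⟩, ?_⟩
  · rw [mem_iUnion, region_rect h1 h2]
    simp only [m, Fin.exists_fin_succ, s, t, Matrix.cons_val_zero, Matrix.cons_val_succ,
      IsEmpty.exists_iff, or_false]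
    refine ⟨?_, fun ⟨a1, a2, a3, a4⟩ => ?_⟩
    · rintro (h | h | h | h) <;> obtain ⟨a1, a2, a3, a4⟩ := h <;> refine ⟨?_, ?_, ?_, ?_⟩ <;> linarith
    · rcases le_total (2 * p 0) (a + (b + 1)) with e | e <;>
        rcases le_total (2 * p 1) (c + (d + 1)) with e' | e'
      · exact .inl ⟨by linarith, by linarith, by linarith, by linarith⟩
      · exact .inr (.inr (.inl ⟨by linarith, by linarith, by linarith, by linarith⟩))
      · exact .inr (.inl ⟨by linarith, by linarith, by linarith, by linarith⟩)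
      · exact .inr (.inr (.inr ⟨by linarith, by linarith, by linarith, by linarith⟩))
  · rw [← image_comp]
    exact image_congr fun p _ => by simp [f]
  · have u : ∀ i j, s i = a → s j = b + 1 → Disjoint (interior (f i '' region _))
        (interior (f j '' region _)) := fun i j e e' => sep 0 ((a + (b + 1)) / 2)
      (fun p hp => by linarith [((m i p).1 hp).2.1]) fun p hp => by linarith [((m j p).1 hp).1]
    have v : ∀ i j, t i = c → t j = d + 1 → Disjoint (interior (f i '' region _))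
        (interior (f j '' region _)) := fun i j e e' => sep 1 ((c + (d + 1)) / 2)
      (fun p hp => by linarith [((m i p).1 hp).2.2.2]) fun p hp => by
        linarith [((m j p).1 hp).2.2.1]
    intro i j hij
    fin_cases i <;> fin_cases j <;> first
      | exact absurd rfl hij
      | exact u _ _ rfl rfl
      | exact (u _ _ rfl rfl).symm
      | exact v _ _ rfl rfl
      | exact (v _ _ rfl rfl).symm

theorem symmetric_main (S : Finset (ℤ × ℤ)) (hne : S.Nonempty) (hc : EdgeConnected S)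
    (hs : ∃ o : Plane, (fun p => o - p) '' region S = region S) :
    (∃ n, 2 ≤ n ∧ IsRep n (region S)) ↔
      ∃ a b c d : ℤ, S = Finset.Icc a b ×ˢ Finset.Icc c d := by
  refine ⟨fun ⟨n, hn, h⟩ => ?_, ?_⟩
  · obtain ⟨l, r, b, t, B⟩ := exists_box hne
    obtain ⟨o, ho⟩ := hs
    obtain ⟨F, N, hN, W⟩ := wall_rep hn h B (D := max (r - l) (t - b) + 1) (by omega) (by omega)
    refine ⟨l, r, b, t, Finset.ext fun p => ?_⟩
    rw [Finset.mem_product, Finset.mem_Icc, Finset.mem_Icc, and_assoc]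
    exact ⟨B.bd p, fun ⟨a1, a2, a3, a4⟩ => W.rect hc (sym_of B fun p hp => ho.subset ⟨p, hp, rfl⟩) B
      hN (by omega) (by omega) a1 a2 a3 a4⟩
  · rintro ⟨a, b, c, d, rfl⟩
    obtain ⟨p, hp⟩ := hne
    simp only [Finset.mem_product, Finset.mem_Icc] at hp
    exact ⟨4, by decide, rect_rep (by omega) (by omega)⟩

/-- rows and columns are intervals -/
def Cvx (T : Set (ℤ × ℤ)) : Prop :=
  (∀ x1 x x2 y, (x1, y) ∈ T → (x2, y) ∈ T → x1 ≤ x → x ≤ x2 → (x, y) ∈ T) ∧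
    ∀ x y1 y y2, (x, y1) ∈ T → (x, y2) ∈ T → y1 ≤ y → y ≤ y2 → (x, y) ∈ T

theorem Cg.cvx {T T' : Set (ℤ × ℤ)} (h : Cg T T') (hc : Cvx T) : Cvx T' := by
  obtain ⟨ε, η, e, f, h1, h2, h | h⟩ := h.symm <;> simp only [Cvx, h] <;>
    refine ⟨fun _ _ _ _ a b _ _ => ?_, fun _ _ _ _ a b _ _ => ?_⟩
  · rcases h1 with rfl | rfl
    exacts [hc.1 _ _ _ _ a b (by omega) (by omega), hc.1 _ _ _ _ b a (by omega) (by omega)]
  · rcases h2 with rfl | rfl
    exacts [hc.2 _ _ _ _ a b (by omega) (by omega), hc.2 _ _ _ _ b a (by omega) (by omega)]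
  · rcases h2 with rfl | rfl
    exacts [hc.2 _ _ _ _ a b (by omega) (by omega), hc.2 _ _ _ _ b a (by omega) (by omega)]
  · rcases h1 with rfl | rfl
    exacts [hc.1 _ _ _ _ a b (by omega) (by omega), hc.1 _ _ _ _ b a (by omega) (by omega)]

theorem Conn.cross {T : Set (ℤ × ℤ)} (h : Conn T) {p q : ℤ × ℤ} (hp : p ∈ T) (hq : q ∈ T) {x : ℤ}
    (h1 : p.1 ≤ x) (h2 : x < q.1) : ∃ y, (x, y) ∈ T ∧ (x + 1, y) ∈ T := by
  have := h p hp q hq
  clear hq
  induction this with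
  | refl => omega
  | @tail u v _ hs ih =>
    refine (lt_or_ge x u.1).elim ih fun h3 => ⟨u.2, ?_, ?_⟩ <;> have := hs.cases
    · exact (show u.1 = x by omega) ▸ hs.1
    · exact (show v.1 = x + 1 by omega) ▸ (show v.2 = u.2 by omega) ▸ hs.2.1

theorem convex_main (S : Finset (ℤ × ℤ)) (hne : S.Nonempty) (hc : EdgeConnected S) (hv : Cvx S)
    {n : ℕ} (hn : 2 ≤ n) (h : IsRep n (region S)) :
    (∃ y, (∀ c ∈ S, (c.1, y) ∈ S) ∧ ((∀ c ∈ S, y ≤ c.2) ∨ ∀ c ∈ S, c.2 ≤ y)) ∨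
      ∃ x, (∀ c ∈ S, (x, c.2) ∈ S) ∧ ((∀ c ∈ S, x ≤ c.1) ∨ ∀ c ∈ S, c.1 ≤ x) := by
  obtain ⟨l, r, b, t, B⟩ := exists_box hne
  obtain ⟨F, N, hN, W⟩ := wall_rep hn h B (D := max (r - l) (t - b) + 1) (by omega) (by omega)
  have bd := B.bd
  obtain ⟨_, g⟩ := B.L
  have := bd _ g
  rcases W.step B (by omega) (by omega) with ⟨T, hT, l', r', t', B', a1, a2⟩ |
    ⟨T1, h1, T2, h2, l', r', t', l'', r'', t'', x, B1, B2, -, a2, a3, -, a5, a6, a7⟩
  · have f := fun u => ((W.cg T hT).cvx hv).1 l' u r' 0 a1 a2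
    obtain ⟨s, s', ⟨d1, d2, k⟩ | ⟨d1, d2, k⟩⟩ := (W.cg T hT).form B B'
    · refine .inl ⟨cond s' b t, fun c hc => (k _ _).2 ?_, by
        cases s'
        exacts [.inr fun c hc => (bd c hc).2.2.2, .inl fun c hc => (bd c hc).2.2.1]⟩
      have := bd c hc
      cases s <;> cases s' <;> simp only [nm, cond_true, cond_false, sub_self, add_zero] <;>
        exact f _ (by omega) (by omega)
    · refine .inr ⟨cond s' l r, fun c hc => (k _ _).2 ?_, by
        cases s'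
        exacts [.inr fun c hc => (bd c hc).2.1, .inl fun c hc => (bd c hc).1]⟩
      have := bd c hc
      cases s <;> cases s' <;> simp only [nm, cond_true, cond_false, sub_self, add_zero] <;>
        exact f _ (by omega) (by omega)
  obtain ⟨_, g1⟩ := B1.R
  obtain ⟨_, g2⟩ := B2.L
  obtain ⟨y, b1, b2⟩ := ((W.cg _ h1).conn hc).cross a2 g1 le_rfl a5
  obtain ⟨y', b3, b4⟩ := ((W.cg _ h2).conn hc).cross g2 a3 a6 (lt_add_one x)
  rcases le_total y y' with e | e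
  · exact absurd b2 (a7 _ (((W.cg _ h2).cvx hv).2 _ _ _ _ a3 b4 (B1.bd _ b1).2.2.1 e))
  · exact absurd (((W.cg _ h1).cvx hv).2 _ _ _ _ a2 b1 (B2.bd _ b3).2.2.1 e) (a7 _ b3)

end Pool.Agent.Lib.MP_6717ce_co
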