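import Mathlib

/-! A parity function for lattice paths (discrete Jordan curve argument). -/

namespace Pool.Agent.Lib.MP_6717ce_co

open Relation

/-- a step between neighbouring cells of `T` -/
def St (T : Set (ℤ × ℤ)) (a b : ℤ × ℤ) : Prop := a ∈ T ∧ b ∈ T ∧ |a.1 - b.1| + |a.2 - b.2| = 1

def Conn (T : Set (ℤ × ℤ)) : Prop := ∀ c ∈ T, ∀ d ∈ T, ReflTransGen (St T) c d

theorem St.cases {T : Set (ℤ × ℤ)} {a b : ℤ × ℤ} (h : St T a b) :
    (b.1 = a.1 + 1 ∧ b.2 = a.2) ∨ (a.1 = b.1 + 1 ∧ b.2 = a.2) ∨ (b.1 = a.1 ∧ b.2 = a.2 + 1) ∨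
      (b.1 = a.1 ∧ a.2 = b.2 + 1) := by
  have := h.2.2
  rcases abs_cases (a.1 - b.1) with h1 | h1 <;> rcases abs_cases (a.2 - b.2) with h2 | h2 <;> omega

/-- parity of the number of crossings of a path with the ray going right from a cell -/
structure Par (B : Set (ℤ × ℤ)) (u v : ℤ × ℤ) (φ : ℤ → ℤ → ℤ) : Prop where
  H : ∀ x y, (x + 1, y) ∉ B → φ x y % 2 = φ (x + 1) y % 2
  V : ∀ x y, (x, y + 1) ∉ B → (φ x y + φ x (y + 1)) % 2 =
    ((if u.2 = y + 1 ∧ x < u.1 then 1 else 0) + if v.2 = y + 1 ∧ x < v.1 then 1 else 0) % 2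
  R : ∀ x y, (∀ p ∈ B, p.1 ≤ x) → φ x y % 2 = 0
  L : ∀ x y, (∀ p ∈ B, x < p.1) →
    φ x y % 2 = ((if u.2 ≤ y then 1 else 0) + if v.2 ≤ y then 1 else 0) % 2
  T : ∀ x y, (∀ p ∈ B, p.2 ≤ y) → φ x y % 2 = 0
  D : ∀ x y, (∀ p ∈ B, y < p.2) → φ x y % 2 = 0

theorem exists_par {B : Set (ℤ × ℤ)} {u v : ℤ × ℤ} (h : ReflTransGen (St B) u v) :
    ∃ φ, Par B u v φ := by
  induction h with
  | refl => exact ⟨fun _ _ => 0, fun _ _ _ => rfl, fun _ _ _ => by split_ifs <;> rfl,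
      fun _ _ _ => rfl, fun _ _ _ => by split_ifs <;> rfl, fun _ _ _ => rfl, fun _ _ _ => rfl⟩
  | @tail v w _ hs ih =>
    obtain ⟨φ, hφ⟩ := ih
    have hc := hs.cases
    have ne : ∀ {x y}, (x, y) ∉ B → ¬ (v.1 = x ∧ v.2 = y) ∧ ¬ (w.1 = x ∧ w.2 = y) := fun h =>
      ⟨fun e => h (e.1 ▸ e.2 ▸ hs.1), fun e => h (e.1 ▸ e.2 ▸ hs.2.1)⟩
    refine ⟨fun x y => φ x y + if v.1 = w.1 ∧ x < v.1 ∧ (v.2 = y ∧ w.2 = y + 1 ∨ w.2 = y ∧
      v.2 = y + 1) then 1 else 0, fun x y h => ?_, fun x y h => ?_, fun x y h => ?_,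
      fun x y h => ?_, fun x y h => ?_, fun x y h => ?_⟩
    · have := hφ.H x y h
      have := ne h
      split_ifs <;> omega
    · have := hφ.V x y h
      have := ne h
      split_ifs at * <;> omega
    · have := hφ.R x y h
      have := h v hs.1
      split_ifs <;> omega
    · have := hφ.L x y h
      have := h v hs.1
      split_ifs at * <;> omega
    · have := hφ.T x y h
      have := h v hs.1
      have := h w hs.2.1
      split_ifs <;> omega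
    · have := hφ.D x y h
      have := h v hs.1
      have := h w hs.2.1
      split_ifs <;> omega

/-- the parity is constant along paths that avoid `B` -/
theorem Par.const {B A : Set (ℤ × ℤ)} {u v : ℤ × ℤ} {φ : ℤ → ℤ → ℤ} (hφ : Par B u v φ)
    (hd : ∀ p ∈ A, p ∉ B) (hu : ∀ p ∈ A, u.2 ≤ p.2) (hv : (∀ p ∈ A, v.2 ≤ p.2) ∨ ∀ p ∈ A, p.2 < v.2)
    {c d : ℤ × ℤ} (h : ReflTransGen (St A) c d) : φ c.1 c.2 % 2 = φ d.1 d.2 % 2 := by
  induction h with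
  | refl => rfl
  | @tail p q _ hs ih =>
    rw [ih]
    have h1 := hd p hs.1
    have h2 := hd q hs.2.1
    have h3 := hu p hs.1
    have h4 := hu q hs.2.1
    have h5 : (v.2 ≤ p.2 ∧ v.2 ≤ q.2) ∨ (p.2 < v.2 ∧ q.2 < v.2) :=
      hv.imp (fun h => ⟨h p hs.1, h q hs.2.1⟩) fun h => ⟨h p hs.1, h q hs.2.1⟩
    obtain ⟨x, y⟩ := p
    obtain ⟨x', y'⟩ := q
    rcases hs.cases with ⟨e1, e2⟩ | ⟨e1, e2⟩ | ⟨e1, e2⟩ | ⟨e1, e2⟩ <;> simp only at e1 e2 h3 h4 h5 ⊢ <;>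
      subst e1 e2
    · exact hφ.H _ _ h2
    · exact (hφ.H _ _ h1).symm
    · have := hφ.V _ _ h2
      split_ifs at this <;> omega
    · have := hφ.V _ _ h1
      split_ifs at this <;> omega

end Pool.Agent.Lib.MP_6717ce_co
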