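import Pool.Agent.Lib.MP_6717ce_co.Sweep

/-! A reptile made of grid cells tiles a neighbourhood of a wall between two corners. -/

namespace Pool.Agent.Lib.MP_6717ce_co

open Set MeasureTheory

def Rep (R : Set Plane) (ρ : ℝ) : Prop :=
  ∃ (ι : Type) (_ : Finite ι) (f : ι → Plane ≃ₜ Plane),
    (∀ i x y, dist (f i x) (f i y) = ρ * dist x y) ∧ ⋃ i, f i '' R = R ∧
    Pairwise fun i j => Disjoint (interior (f i '' R)) (interior (f j '' R))

theorem sim_equiv {f : Plane → Plane} {r : ℝ} (hr : 0 < r)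
    (hf : ∀ x y, dist (f x) (f y) = r * dist x y) (o : Plane) :
    ∃ g : Plane ≃ᵃⁱ[ℝ] Plane, ∀ x, g x = r⁻¹ • f x - o := by
  have : Isometry fun x => r⁻¹ • f x - o := Isometry.of_dist_eq fun x y => by
    rw [dist_sub_right, dist_smul₀, hf, norm_inv, Real.norm_of_nonneg hr.le,
      inv_mul_cancel_left₀ hr.ne']
  exact ⟨this.affineIsometryOfStrictConvexSpace.toAffineIsometryEquiv rfl, fun x => by simp⟩

variable {R : Set Plane}

theorem Rep.mul {ρ σ : ℝ} (h : Rep R ρ) (h' : Rep R σ) : Rep R (ρ * σ) := by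
  obtain ⟨ι, _, f, h1, h2, h3⟩ := h
  obtain ⟨κ, _, g, h4, h5, h6⟩ := h'
  have e : ∀ i j, (g j).trans (f i) '' R = f i '' (g j '' R) := fun i j => by
    rw [← image_comp]; rfl
  refine ⟨ι × κ, inferInstance, fun p => (g p.2).trans (f p.1), fun p x y => by
    simp [h1, h4, mul_assoc], ?_, fun p q hpq => ?_⟩
  · simp only [e, iUnion_prod', ← image_iUnion, h5, h2]
  · have s : ∀ j, g j '' R ⊆ R := fun j => (subset_iUnion (fun j => g j '' R) j).trans h5.subset
    simp only [e]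
    rcases eq_or_ne p.1 q.1 with a | a
    · rw [a, ← Homeomorph.image_interior, ← Homeomorph.image_interior _ (g q.2 '' R)]
      exact disjoint_image_of_injective (f _).injective (h6 fun b => hpq (Prod.ext a b))
    · exact (h3 a).mono (interior_mono (image_mono (s _))) (interior_mono (image_mono (s _)))

theorem Rep.pow {ρ : ℝ} (h : Rep R ρ) (m : ℕ) : Rep R (ρ ^ m) := by
  induction m with
  | zero => exact ⟨Unit, inferInstance, fun _ => .refl _, by simp, by simp [iUnion_const],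
      Subsingleton.pairwise⟩
  | succ m ih => exact pow_succ ρ m ▸ ih.mul h

theorem rep_of {n : ℕ} (hn : 2 ≤ n) (h : IsRep n R) (h0 : (interior R).Nonempty) :
    ∃ ρ, 0 < ρ ∧ ρ < 1 ∧ Rep R ρ := by
  obtain ⟨hc, -, T, h1, h2, h3, h4⟩ := h
  obtain ⟨r, f0, hr, hf, hT⟩ := h3 ⟨0, by omega⟩
  obtain ⟨g, hg⟩ := sim_equiv hr hf 0
  choose φ hφ using h2 ⟨0, by omega⟩
  let f : Fin n → Plane ≃ₜ Plane := fun i =>
    (g.toHomeomorph.trans (.smulOfNeZero r hr.ne')).trans (φ i).toHomeomorph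
  have e : ∀ i x, f i x = φ i (f0 x) := fun i x => by simp [f, hg, smul_smul, hr.ne']
  have e1 : ∀ i, f i '' R = T i := fun i => by rw [← hφ, ← hT, ← image_comp]; simp [e]
  have e2 : ∀ i x y, dist (f i x) (f i y) = r * dist x y := fun i x y => by
    rw [e, e, (φ i).dist_eq, hf]
  refine ⟨r, hr, lt_of_not_ge fun h => ?_, Fin n, inferInstance, f, e2, by simp [e1, h1],
    by simpa [e1] using h4⟩
  let μ : Measure Plane := .hausdorffMeasure (Module.finrank ℝ Plane)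
  have a1 : ∀ i, μ (interior R) ≤ μ (interior (T i)) := fun i => by
    have := (AntilipschitzWith.of_le_mul_dist (K := 1) (f := f i) fun x y => by
      rw [e2]; simpa using le_mul_of_one_le_left dist_nonneg h).le_hausdorffMeasure_image
      (Nat.cast_nonneg (Module.finrank ℝ Plane)) (interior R)
    simpa [μ, Homeomorph.image_interior, e1] using this
  have a2 := measure_union (μ := μ) (h4 (i := ⟨0, by omega⟩) (j := ⟨1, by omega⟩) (by simp))
    isOpen_interior.measurableSet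
  have a3 : ∀ i, interior (T i) ⊆ interior R := fun i => interior_mono (h1 ▸ subset_iUnion T i)
  have a4 := (add_le_add (a1 _) (a1 _)).trans (a2.ge.trans (measure_mono (union_subset (a3 _) (a3 _))))
  exact (ENNReal.lt_add_right ((measure_mono interior_subset).trans_lt hc.measure_lt_top).ne
    (isOpen_interior.measure_ne_zero μ h0)).not_ge a4

theorem region_eq (S : Finset (ℤ × ℤ)) : region S = reg S := rfl

theorem wall_rep {S : Finset (ℤ × ℤ)} {n : ℕ} (hn : 2 ≤ n) (h : IsRep n (region S))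
    {l r b t D : ℤ} (B : Box S l r b t) (h1 : r - l < D) (h2 : t - b < D) :
    ∃ F N, D ≤ N ∧ Wall S F N D := by
  obtain ⟨a, ha, ma⟩ := Int.exists_least_of_bdd (P := fun x => (x, b) ∈ (S : Set (ℤ × ℤ)))
    ⟨l, fun x h => (B.bd _ h).1⟩ B.B
  obtain ⟨z, ⟨z1, hz⟩, mz⟩ := Int.exists_greatest_of_bdd
    (P := fun x => a ≤ x ∧ ∀ u, a ≤ u → u ≤ x → (u, b) ∈ (S : Set (ℤ × ℤ)))
    ⟨r, fun x h => (B.bd _ (h.2 x h.1 le_rfl)).2.1⟩
    ⟨a, le_rfl, fun u h h' => le_antisymm h h' ▸ ha⟩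
  have z2 : (z + 1, b) ∉ (S : Set (ℤ × ℤ)) := fun h => by
    have := mz (z + 1) ⟨by omega, fun u h1 h2 => (Int.lt_or_eq_of_le h2).elim
      (fun h => hz u h1 (by omega)) fun e => e ▸ h⟩
    omega
  have D0 : (0 : ℝ) < D := by have := B.bd _ ha; exact_mod_cast (by omega : 0 < D)
  obtain ⟨ρ, r0, r1, hρ⟩ := rep_of hn h ⟨_, oc_int ha (ctr_mem _)⟩
  obtain ⟨m, hm⟩ := exists_pow_lt_of_lt_one (by positivity : 0 < (2 * (D : ℝ) + 1)⁻¹) r1
  obtain ⟨ι, _, f, f1, f2, f3⟩ := hρ.pow m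
  have p0 := pow_pos r0 m
  generalize ρ ^ m = σ at *
  have hμ : 2 * D + 1 ≤ σ⁻¹ := (lt_inv_comm₀ p0 (by positivity)).1 hm |>.le
  choose g hg using fun k => sim_equiv p0 (f1 k) (σ⁻¹ • !₂[(a : ℝ), (b : ℝ)])
  let H : Plane ≃ₜ Plane := (Homeomorph.smulOfNeZero σ⁻¹ (inv_ne_zero p0.ne')).trans
    (.subRight (σ⁻¹ • !₂[(a : ℝ), (b : ℝ)]))
  have e : ∀ k, g k '' reg S = H '' (f k '' reg S) := fun k => by
    rw [← image_comp]; exact image_congr fun x _ => hg k x
  have e1 : ∀ p, H p 0 = σ⁻¹ * (p 0 - a) ∧ H p 1 = σ⁻¹ * (p 1 - b) := fun p => by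
    simp [H, mul_sub]
  have m0 : 0 < σ⁻¹ := inv_pos.2 p0
  generalize σ⁻¹ = μ at hμ e1 m0
  have z3 : (a : ℝ) ≤ z := Int.cast_le.2 z1
  obtain ⟨F, hF⟩ := wall_of (g := g) (w := μ * (z + 1 - a)) (μ := μ) S.finite_toSet
    (fun k k' h => by
      beta_reduce
      rw [e, e, ← H.image_interior, ← H.image_interior (f k' '' _)]
      exact disjoint_image_of_injective H.injective (f3 h))
    (fun p a1 a2 a3 a4 => by
      obtain ⟨p, rfl⟩ := H.surjective p
      rw [(e1 p).1] at a1 a2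
      rw [(e1 p).2] at a3 a4
      have b1 := nonneg_of_mul_nonneg_right a1 m0
      have b2 := le_of_mul_le_mul_left a2 m0
      have b3 := nonneg_of_mul_nonneg_right a3 m0
      have b4 := le_of_mul_le_mul_left (a4.trans_eq (mul_one μ).symm) m0
      have : p ∈ ⋃ k, f k '' reg S := f2.symm.subset (mem_reg.2 ⟨(min ⌊p 0⌋ z, b), hz _
        (le_min (Int.le_floor.2 (by linarith)) z1) (min_le_right _ _), by
          push_cast; exact (min_le_left _ _).trans (Int.floor_le _), by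
          push_cast
          rw [← min_add_add_right]
          exact le_min (Int.lt_floor_add_one _).le (by linarith), by linarith, by linarith⟩)
      obtain ⟨k, hk⟩ := mem_iUnion.1 this
      exact ⟨k, e k ▸ mem_image_of_mem H hk⟩)
    (fun k p hp => by
      rw [e] at hp
      obtain ⟨p, hp, rfl⟩ := hp
      obtain ⟨d, hd, d1, d2, d3, d4⟩ := mem_reg.1 (f2.subset (mem_iUnion.2 ⟨k, hp⟩))
      have b0 : (b : ℝ) ≤ d.2 := Int.cast_le.2 (B.bd _ hd).2.2.1
      rw [(e1 p).1, (e1 p).2]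
      refine ⟨mul_nonneg m0.le (by linarith), fun a1 a2 a3 => ?_⟩
      have b1 := lt_of_mul_lt_mul_left (a1.trans_eq (mul_one μ).symm) m0.le
      have b2 : p 0 - a < z + 1 - a + 1 := lt_of_mul_lt_mul_left (by linarith) m0.le
      have c1 : d.2 < b + 1 := (Int.cast_lt (R := ℝ)).1 (by push_cast; linarith)
      have c2 : d.2 = b := by have := B.bd _ hd; omega
      have c3 : (a : ℝ) ≤ d.1 := Int.cast_le.2 (ma _ (c2 ▸ hd))
      have c4 : d.1 < z + 2 := (Int.cast_lt (R := ℝ)).1 (by push_cast; linarith)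
      have c5 : d.1 ≠ z + 1 := fun e => z2 (e ▸ c2 ▸ hd)
      have c6 : (d.1 : ℝ) ≤ z := Int.cast_le.2 (by omega)
      exact ⟨mul_nonneg m0.le (by linarith), mul_le_mul_of_nonneg_left (by linarith) m0.le⟩)
    B h1 h2 hμ
  exact ⟨F, _, (Int.cast_le (R := ℝ)).1 ((by nlinarith : (D : ℝ) ≤ μ * (z + 1 - a)).trans
    (Int.le_ceil _)), hF⟩

theorem exists_box {S : Finset (ℤ × ℤ)} (h : S.Nonempty) : ∃ l r b t, Box S l r b t := by
  obtain ⟨p1, a1, b1⟩ := S.exists_min_image Prod.fst h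
  obtain ⟨p2, a2, b2⟩ := S.exists_max_image Prod.fst h
  obtain ⟨p3, a3, b3⟩ := S.exists_min_image Prod.snd h
  obtain ⟨p4, a4, b4⟩ := S.exists_max_image Prod.snd h
  exact ⟨_, _, _, _, fun p hp => ⟨b1 p hp, b2 p hp, b3 p hp, b4 p hp⟩, ⟨_, a1⟩, ⟨_, a2⟩, ⟨_, a3⟩,
    ⟨_, a4⟩⟩

end Pool.Agent.Lib.MP_6717ce_co
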