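import Pool.Agent.Lib.MP_6717ce_co.Disc

/-! Consequences of a tiling of a neighbourhood of a wall between two corners. -/

namespace Pool.Agent.Lib.MP_6717ce_co

open Relation

variable {S T T' : Set (ℤ × ℤ)} {l r b t l' r' b' t' : ℤ}

/-- a copy leaning to the right cannot be followed by a copy leaning to the left -/
theorem hook (h : Cg T T') (hc : Conn T) (hs : Sym T) (hd : ∀ p ∈ T', p ∉ T) (B : Box T l r 0 t)
    (B' : Box T' l' r' 0 t') {x : ℤ} (f : ∀ u, l ≤ u → u ≤ x → (u, 0) ∈ T) (a1 : l ≤ x) (a2 : x < r)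
    (f' : ∀ u, x < u → u ≤ r' → (u, 0) ∈ T') (a3 : x < r') (a4 : l' ≤ x) (nA : (l', 0) ∉ T')
    (ht : t' ≤ t) : False := by
  have g1 : (r, t) ∈ T := by simpa using hs.box B (f l le_rfl a1)
  have g2 : (l', t') ∈ T' := by simpa using (h.sym hs).box B' (f' r' a3 le_rfl)
  have g3 := B'.bd _ g2
  obtain ⟨φ, hφ⟩ := exists_par (B := insert (r, t + 1) T) (u := (x, 0)) (v := (r, t + 1))
    (.tail (ReflTransGen.mono (fun a b (h : St T a b) => ⟨.inr h.1, .inr h.2.1, h.2.2⟩) _ _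
      (hc _ (f x a1 le_rfl) _ g1)) ⟨.inr g1, .inl rfl, by simp⟩)
  have bd : ∀ p ∈ insert (r, t + 1) T, l ≤ p.1 ∧ 0 ≤ p.2 ∧ p.2 ≤ t + 1 := by
    rintro p (rfl | hp)
    · simp only; omega
    · have := B.bd p hp; omega
  have hd' : ∀ p ∈ T', p ∉ insert (r, t + 1) T := by
    rintro p hp (rfl | h)
    exacts [by have := B'.bd _ hp; omega, hd p hp h]
  have c : ∀ u y, (u, y) ∈ T' → φ u y % 2 = 0 := fun _ _ hp => by
    have g := f' (x + 1) (by omega) (by omega)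
    have e1 := hφ.const hd' (fun p hp => (B'.bd p hp).2.2.1)
      (.inr fun p hp => by have := B'.bd p hp; simp only; omega) (h.conn hc _ g _ hp)
    have e2 := hφ.V (x + 1) (-1) (hd' _ (by simpa using g))
    have e3 := hφ.D (x + 1) (-1) fun p hp => by have := bd p hp; omega
    simp only [neg_add_cancel] at e1 e2
    split_ifs at e2 <;> omega
  have c1 := c _ _ g2
  rcases ht.eq_or_lt with rfl | ht
  · have e2 := hφ.V l' t' (by
      rintro (h | h)
      exacts [by have := congrArg Prod.fst h; simp only at this; omega,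
        by have := B.bd _ h; omega])
    have e3 := hφ.T l' (t' + 1) fun p hp => (bd p hp).2.2
    simp only [true_and] at e2
    split_ifs at e2 <;> omega
  rcases lt_or_ge l' l with a5 | a5
  · have e3 := hφ.L l' t' fun p hp => by have := bd p hp; omega
    simp only at e3
    split_ifs at e3 <;> omega
  obtain ⟨s, s', ⟨-, _, -⟩ | ⟨d1, d2, k⟩⟩ := h.form B B'
  · omega
  have key : ∀ u y, (u, y) ∈ T ↔ (y + l', r - u) ∈ T' := fun u y => by
    cases s <;> cases s' <;> simp only [nm, cond_true, cond_false] at k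
    · exact absurd (by simpa using (k _ _).1 g1) nA
    · refine ⟨fun h => ?_, fun h => ?_⟩
      · convert (k _ _).1 (hs.box B h) using 2 <;> ring
      · convert hs.box B ((k (l + r - u) (t - y)).2 (by convert h using 2 <;> ring)) using 2 <;> ring
    · simpa using k u y
    · exact absurd (by simpa using (k _ _).1 (f l le_rfl a1)) nA
  have e1 : ∀ u, u ≤ l' → l - 1 ≤ u → φ u (r - l') % 2 = 0 := fun u hu => by
    induction u, hu using Int.leInductionDown with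
    | base => exact fun _ => c _ _ (by simpa using (key _ _).1 (f l' a5 a4))
    | pred u hu ih =>
      intro h1
      rw [← ih (by omega), hφ.H, sub_add_cancel]
      rw [sub_add_cancel]
      rintro (h | h)
      · have := congrArg Prod.fst h
        simp only at this
        omega
      · exact hd _ (by simpa using (key _ _).1 h) ((key r (r - u)).2
          (by simpa using f' (r - u + l') (by omega) (by omega)))
  have e2 := e1 (l - 1) (by omega) le_rfl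
  have e3 := hφ.L (l - 1) (r - l') fun p hp => by have := bd p hp; omega
  simp only at e3
  split_ifs at e3 <;> omega

/-- copies of `S` tile a neighbourhood of a wall between two corners -/
structure Wall (S : Set (ℤ × ℤ)) (F : Set (Set (ℤ × ℤ))) (N D : ℤ) : Prop where
  cg : ∀ T ∈ F, Cg S T
  dis : ∀ T ∈ F, ∀ T' ∈ F, ∀ p ∈ T, p ∈ T' → T = T'
  ins : ∀ T ∈ F, ∀ p ∈ T, 0 ≤ p.1 ∧ p.1 < N ∧ 0 ≤ p.2
  cov : ∀ x y, 0 ≤ x → x < N → 0 ≤ y → y < D → ∃ T ∈ F, (x, y) ∈ T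

variable {F : Set (Set (ℤ × ℤ))} {N D : ℤ}

theorem Wall.box (W : Wall S F N D) (B : Box S l r b t) (hT : T ∈ F) {x : ℤ} (hx : (x, 0) ∈ T) :
    ∃ l r t, Box T l r 0 t := by
  obtain ⟨l, r, b, t, B⟩ := (W.cg T hT).box B
  obtain ⟨y, hy⟩ := B.B
  have := W.ins T hT _ hy
  have := B.bd _ hx
  obtain rfl : b = 0 := by omega
  exact ⟨l, r, t, B⟩

/-- either a copy covers both lower corners of its box, or a copy covering the lower left corner
is followed by one that does not -/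
theorem Wall.step (W : Wall S F N D) (B : Box S l r b t) (hN : 0 < N) (hD : 0 < D) :
    (∃ T ∈ F, ∃ l r t, Box T l r 0 t ∧ (l, 0) ∈ T ∧ (r, 0) ∈ T) ∨
    ∃ T ∈ F, ∃ T' ∈ F, ∃ l r t l' r' t' x, Box T l r 0 t ∧ Box T' l' r' 0 t' ∧ (l, 0) ∈ T ∧
      (x, 0) ∈ T ∧ (x + 1, 0) ∈ T' ∧ (l', 0) ∉ T' ∧ x < r ∧ l' ≤ x ∧ ∀ p ∈ T', p ∉ T := by
  rw [or_iff_not_imp_left]
  intro no
  obtain ⟨x, ⟨T, hT, l, r, t, B1, h1, h2⟩, mx⟩ := Int.exists_greatest_of_bdd
    (P := fun x => ∃ T ∈ F, ∃ l r t, Box T l r 0 t ∧ (l, 0) ∈ T ∧ (x, 0) ∈ T)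
    ⟨N, fun x ⟨T, hT, _, _, _, _, _, h⟩ => (W.ins T hT _ h).2.1.le⟩ (by
      obtain ⟨T, hT, h⟩ := W.cov 0 0 le_rfl hN le_rfl hD
      obtain ⟨l, r, t, B⟩ := W.box B hT h
      obtain ⟨y, hy⟩ := B.L
      have := W.ins T hT _ hy
      have := B.bd _ h
      obtain rfl : l = 0 := by omega
      exact ⟨0, T, hT, _, _, _, B, h, h⟩)
  have a1 : x < r := (B1.bd _ h2).2.1.lt_of_ne fun e => no ⟨T, hT, l, r, t, B1, h1, e ▸ h2⟩
  obtain ⟨y, hy⟩ := B1.R
  have := W.ins T hT _ hy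
  have := W.ins T hT _ h2
  obtain ⟨T', hT', h3⟩ := W.cov (x + 1) 0 (by omega) (by omega) le_rfl hD
  obtain ⟨l', r', t', B2⟩ := W.box B hT' h3
  have a2 : (l', 0) ∉ T' := fun h => by
    have := mx _ ⟨T', hT', _, _, _, B2, h, h3⟩
    omega
  refine ⟨T, hT, T', hT', l, r, t, l', r', t', x, B1, B2, h1, h2, h3, a2, a1,
    Int.le_of_lt_add_one ((B2.bd _ h3).1.lt_of_ne fun e => a2 (e ▸ h3)), fun p hp hp' => ?_⟩
  have := mx _ ⟨T, hT, _, _, _, B1, h1, W.dis T hT T' hT' p hp' hp ▸ h3⟩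
  omega

theorem Wall.foot (W : Wall S F N D) (hc : Conn S) (hD : 0 < D) (hT : T ∈ F) (B : Box T l r 0 t)
    {x1 x2 x : ℤ} (h1 : (x1, 0) ∈ T) (h2 : (x2, 0) ∈ T) (a1 : x1 ≤ x) (a2 : x ≤ x2) :
    (x, 0) ∈ T := by
  by_contra h
  have := W.ins T hT _ h1
  have := W.ins T hT _ h2
  obtain ⟨T', hT', h3⟩ := W.cov x 0 (by omega) (by omega) le_rfl hD
  exact pocket ((W.cg T hT).symm.trans (W.cg T' hT')) ((W.cg T hT).conn hc)
    (fun p hp hp' => h (W.dis T hT T' hT' p hp' hp ▸ h3)) B (fun p hp => (W.ins T' hT' p hp).2.2)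
    h1 h2 h3 (a1.lt_of_ne fun e => h (e ▸ h1)) (a2.lt_of_ne fun e => h (e ▸ h2))

theorem cg_mir (T : Set (ℤ × ℤ)) : Cg T {p | (-p.1, p.2) ∈ T} :=
  ⟨-1, 1, 0, 0, .inr rfl, .inl rfl, .inl fun x y => by simp⟩

theorem cg_swap (T : Set (ℤ × ℤ)) : Cg T {p | (p.2, p.1) ∈ T} :=
  ⟨1, 1, 0, 0, .inl rfl, .inl rfl, .inr fun x y => by simp⟩

theorem Box.mir (B : Box T l r b t) : Box {p | (-p.1, p.2) ∈ T} (-r) (-l) b t :=
  ⟨fun p hp => by have := B.bd _ hp; simp only at this; omega, by simpa using B.R,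
    by simpa using B.L, B.B.elim fun x h => ⟨-x, by simpa using h⟩,
    B.U.elim fun x h => ⟨-x, by simpa using h⟩⟩

theorem Box.swap (B : Box T l r b t) : Box {p | (p.2, p.1) ∈ T} b t l r :=
  ⟨fun p hp => by have := B.bd _ hp; simp only at this; omega, B.B, B.U, B.L, B.R⟩

/-- in the centrally symmetric case all four corners are covered -/
theorem Wall.corners (W : Wall S F N D) (hc : Conn S) (hs : Sym S) (B : Box S l r b t)
    (hN : 0 < N) (hD : 0 < D) (hT : T ∈ F) (B0 : Box T l' r' b' t') :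
    (l', b') ∈ T ∧ (r', b') ∈ T := by
  have tr : ∀ {T T' : Set (ℤ × ℤ)} {l r b t l' r' b' t' : ℤ}, Cg T T' → Sym T → Box T l r b t →
      Box T' l' r' b' t' → (l, b) ∈ T ∨ (r, b) ∈ T → ((l', b') ∈ T' ∨ (r', b') ∈ T') ∧
        ((l, b) ∈ T → (r, b) ∈ T → (l', b') ∈ T' ∧ (r', b') ∈ T') := by
    intro T T' l r b t l' r' b' t' h hs B B' h0
    have e1 : (l, b) ∈ T → (r, t) ∈ T := fun h => by simpa using hs.box B h
    have e2 : (r, b) ∈ T → (l, t) ∈ T := fun h => by simpa using hs.box B h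
    obtain ⟨s, s', ⟨d1, d2, k⟩ | ⟨d1, d2, k⟩⟩ := h.form B B' <;> simp only [k] at e1 e2 h0 ⊢ <;>
      obtain rfl := eq_add_of_sub_eq d1 <;> cases s <;> cases s' <;>
      simp only [nm, cond_true, cond_false, sub_self, zero_add] at e1 e2 h0 ⊢ <;> tauto
  rcases W.step B hN hD with ⟨T1, h1, l, r, t, B1, a1, a2⟩ |
    ⟨T1, h1, T2, h2, l, r, t, l', r', t', x, B1, B2, a1, a2, a3, a4, a5, a6, a7⟩
  · exact (tr ((W.cg _ h1).symm.trans (W.cg _ hT)) ((W.cg _ h1).sym hs) B1 B0 (.inl a1)).2 a1 a2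
  exfalso
  have c := (W.cg _ h1).symm.trans (W.cg _ h2)
  have s1 := (W.cg _ h1).sym hs
  have c1 := (W.cg _ h1).conn hc
  have a8 := (tr c s1 B1 B2 (.inl a1)).1.resolve_left a4
  have f1 : ∀ u, l ≤ u → u ≤ x → (u, 0) ∈ T1 := fun u => W.foot hc hD h1 B1 a1 a2
  have f2 : ∀ u, x < u → u ≤ r' → (u, 0) ∈ T2 := fun u => W.foot hc hD h2 B2 a3 a8
  have := B1.bd _ a2
  have := B2.bd _ a3
  rcases le_total t' t with ht | ht
  · exact hook c c1 s1 a7 B1 B2 f1 (by omega) a5 f2 (by omega) a6 a4 ht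
  · have m := c.trans (cg_mir T2)
    refine hook (x := -x - 1) (m.symm.trans (cg_mir T1)) (m.conn c1) (m.sym s1)
      (fun p hp hp' => a7 _ hp' hp) B2.mir B1.mir (fun u _ _ => f2 _ (by omega) (by omega))
      (by omega) (by omega) (fun u _ _ => f1 _ (by omega) (by omega)) (by omega) (by omega)
      (fun h => a4 ((tr c s1 B1 B2 (.inl a1)).2 a1 (by simpa using h)).1) ht

theorem Wall.rect (W : Wall S F N D) (hc : Conn S) (hs : Sym S) (B : Box S l r b t)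
    (hN : D ≤ N) (h1 : r - l < D) (h2 : t - b < D) {x y : ℤ} (a1 : l ≤ x) (a2 : x ≤ r)
    (a3 : b ≤ y) (a4 : y ≤ t) : (x, y) ∈ S := by
  obtain ⟨T, hT, h0⟩ := W.cov 0 0 le_rfl (by omega) le_rfl (by omega)
  obtain ⟨l', r', t', B0⟩ := W.box B hT h0
  obtain rfl : l' = 0 := by
    obtain ⟨y, hy⟩ := B0.L
    have := W.ins T hT _ hy
    have := B0.bd _ h0
    omega
  have cT := W.cg T hT
  have g1 := (W.corners hc hs B (by omega) (by omega) hT B0).2
  have g2 : (0, t') ∈ T := by simpa using (cT.sym hs).box B0 g1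
  have dm : r' < D ∧ t' < D := by
    obtain ⟨_, _, ⟨_, _, -⟩ | ⟨_, _, -⟩⟩ := cT.form B B0 <;> omega
  have f1 : ∀ u, 0 ≤ u → u ≤ r' → (u, 0) ∈ T := fun u => W.foot hc (by omega) hT B0 h0 g1
  have f2 : ∀ u, 0 ≤ u → u ≤ t' → (0, u) ∈ T := fun u b1 b2 => by
    by_contra h
    obtain ⟨T', hT', h3⟩ := W.cov 0 u le_rfl (by omega) b1 (by omega)
    have m := cT.trans (cg_swap T)
    exact pocket (m.symm.trans ((W.cg T' hT').trans (cg_swap T'))) (m.conn hc)
      (fun p hp hp' => h (W.dis T hT T' hT' _ hp' hp ▸ h3)) B0.swap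
      (fun p hp => (W.ins T' hT' _ hp).1) (x1 := 0) (x2 := t') (x := u) h0 g2 h3
      (b1.lt_of_ne fun e => h (e ▸ h0)) (b2.lt_of_ne fun e => h (e ▸ g2))
  have full : ∀ u v, 0 ≤ u → u ≤ r' → 0 ≤ v → v ≤ t' → (u, v) ∈ T := fun u v b1 b2 b3 b4 => by
    by_contra h
    obtain ⟨T', hT', h3⟩ := W.cov u v b1 (by omega) b3 (by omega)
    have hd : ∀ p ∈ T', p ∉ T := fun p hp hp' => h (W.dis T hT T' hT' _ hp' hp ▸ h3)
    have inn : ∀ p ∈ T', 0 ≤ p.1 → p.1 ≤ r' → 0 ≤ p.2 → p.2 ≤ t' →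
        0 < p.1 ∧ p.1 < r' ∧ 0 < p.2 ∧ p.2 < t' := by
      rintro ⟨u, v⟩ hp b1 b2 b3 b4
      refine ⟨b1.lt_of_ne ?_, b2.lt_of_ne ?_, b3.lt_of_ne ?_, b4.lt_of_ne ?_⟩ <;> rintro rfl <;>
        refine hd _ hp ?_
      · exact f2 _ b3 b4
      · simpa using (cT.sym hs).box B0 (f2 (t' - v) (by omega) (by omega))
      · exact f1 _ b1 b2
      · simpa using (cT.sym hs).box B0 (f1 (r' - u) (by omega) (by omega))
    have all : ∀ p ∈ T', 0 < p.1 ∧ p.1 < r' ∧ 0 < p.2 ∧ p.2 < t' := fun p hp => by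
      have := (W.cg T' hT').conn hc _ h3 p hp
      clear hp
      induction this with
      | refl => exact inn _ h3 b1 b2 b3 b4
      | tail _ hs ih =>
        have := hs.cases
        exact inn _ hs.2.1 (by omega) (by omega) (by omega) (by omega)
    obtain ⟨l2, r2, b2, t2, B2⟩ := (W.cg T' hT').box B
    obtain ⟨_, j1⟩ := B2.L
    obtain ⟨_, j2⟩ := B2.R
    obtain ⟨_, j3⟩ := B2.B
    obtain ⟨_, j4⟩ := B2.U
    have := all _ j1
    have := all _ j2
    have := all _ j3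
    have := all _ j4
    obtain ⟨_, _, ⟨_, _, -⟩ | ⟨_, _, -⟩⟩ := (cT.symm.trans (W.cg T' hT')).form B0 B2 <;> omega
  obtain ⟨s, s', ⟨d1, d2, k⟩ | ⟨d1, d2, k⟩⟩ := cT.form B B0 <;> rw [k] <;> apply full <;>
    cases s <;> cases s' <;> simp only [nm, cond_true, cond_false] <;> omega

end Pool.Agent.Lib.MP_6717ce_co
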