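import Pool.Agent.Lib.MP_6717ce_co.Defs
import Pool.Agent.Lib.MP_6717ce_co.Two

/-! From arbitrarily placed copies to copies on the grid. -/

namespace Pool.Agent.Lib.MP_6717ce_co

open Set

def reg (T : Set (ℤ × ℤ)) : Set Plane := ⋃ c ∈ T, cell c

/-- the open cell -/
def oc (c : ℤ × ℤ) : Set Plane :=
  {p | (c.1 : ℝ) < p 0 ∧ p 0 < c.1 + 1 ∧ (c.2 : ℝ) < p 1 ∧ p 1 < c.2 + 1}

/-- the centre of a cell -/
noncomputable def ctr (c : ℤ × ℤ) : Plane := !₂[(c.1 : ℝ) + 1 / 2, (c.2 : ℝ) + 1 / 2]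

theorem mem_reg {T : Set (ℤ × ℤ)} {p : Plane} : p ∈ reg T ↔ ∃ c ∈ T, p ∈ cell c := by simp [reg]

theorem oc_open (c : ℤ × ℤ) : IsOpen (oc c) := by
  refine .and ?_ (.and ?_ (.and ?_ ?_)) <;> exact isOpen_lt (by fun_prop) (by fun_prop)

theorem cell_closed (c : ℤ × ℤ) : IsClosed (cell c) := by
  refine .and ?_ (.and ?_ (.and ?_ ?_)) <;> exact isClosed_le (by fun_prop) (by fun_prop)

theorem oc_sub (c : ℤ × ℤ) : oc c ⊆ cell c := fun _ h => ⟨h.1.le, h.2.1.le, h.2.2.1.le, h.2.2.2.le⟩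

theorem ctr_mem (c : ℤ × ℤ) : ctr c ∈ oc c := by
  simp only [oc, ctr, mem_ofPred_eq, Matrix.cons_val_zero, Matrix.cons_val_one]
  refine ⟨?_, ?_, ?_, ?_⟩ <;> linarith

theorem cell_sub (c : ℤ × ℤ) : cell c ⊆ closure (oc c) := fun p hp => by
  refine closure_mono (s := openSegment ℝ p (ctr c)) ?_
    (closure_openSegment (𝕜 := ℝ) p (ctr c) ▸ left_mem_segment _ _ _)
  rintro _ ⟨a, b, ha, hb, hab, rfl⟩
  obtain ⟨h1, h2, h3, h4⟩ := hp
  obtain rfl : a = 1 - b := by linarith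
  simp only [oc, ctr, mem_ofPred_eq, PiLp.add_apply, PiLp.smul_apply, smul_eq_mul,
    Matrix.cons_val_zero, Matrix.cons_val_one]
  refine ⟨?_, ?_, ?_, ?_⟩ <;> nlinarith

theorem eq_of_oc {c d : ℤ × ℤ} {p : Plane} (h : p ∈ oc c) (h' : p ∈ cell d) : d = c := by
  obtain ⟨h1, h2, h3, h4⟩ := h
  obtain ⟨h5, h6, h7, h8⟩ := h'
  have a1 : d.1 < c.1 + 1 := (Int.cast_lt (R := ℝ)).1 (by push_cast; linarith)
  have a2 : c.1 < d.1 + 1 := (Int.cast_lt (R := ℝ)).1 (by push_cast; linarith)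
  have a3 : d.2 < c.2 + 1 := (Int.cast_lt (R := ℝ)).1 (by push_cast; linarith)
  have a4 : c.2 < d.2 + 1 := (Int.cast_lt (R := ℝ)).1 (by push_cast; linarith)
  exact Prod.ext (by omega) (by omega)

theorem ctr_reg {T : Set (ℤ × ℤ)} {c : ℤ × ℤ} : ctr c ∈ reg T ↔ c ∈ T :=
  mem_reg.trans ⟨fun ⟨_, h1, h2⟩ => eq_of_oc (ctr_mem c) h2 ▸ h1,
    fun h => ⟨c, h, oc_sub c (ctr_mem c)⟩⟩

theorem oc_int {T : Set (ℤ × ℤ)} {c : ℤ × ℤ} (h : c ∈ T) : oc c ⊆ interior (reg T) :=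
  interior_maximal (fun _ hp => mem_reg.2 ⟨c, h, oc_sub c hp⟩) (oc_open c)

theorem coords (g : Plane ≃ᵃⁱ[ℝ] Plane) : ∃ o0 o1 a0 a1 b0 b1 : ℝ, a0 ^ 2 + a1 ^ 2 = 1 ∧
    b0 ^ 2 + b1 ^ 2 = 1 ∧ a0 * b0 + a1 * b1 = 0 ∧
    ∀ p, g p 0 = o0 + p 0 * a0 + p 1 * b0 ∧ g p 1 = o1 + p 0 * a1 + p 1 * b1 := by
  let L := g.linearIsometryEquiv
  have i : ∀ u v : Plane, L u 0 * L v 0 + L u 1 * L v 1 = u 0 * v 0 + u 1 * v 1 := fun u v => by
    have := L.inner_map_map u v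
    rw [PiLp.inner_apply, PiLp.inner_apply] at this
    simpa [mul_comm] using this
  refine ⟨g 0 0, g 0 1, L !₂[1, 0] 0, L !₂[1, 0] 1, L !₂[0, 1] 0, L !₂[0, 1] 1,
    by simpa [sq] using i !₂[1, 0] !₂[1, 0], by simpa [sq] using i !₂[0, 1] !₂[0, 1],
    by simpa using i !₂[1, 0] !₂[0, 1], fun p => ?_⟩
  have e : p = p 0 • !₂[(1 : ℝ), 0] + p 1 • !₂[(0 : ℝ), 1] := by
    ext i
    fin_cases i <;> simp
  have e2 : g p = p 0 • L !₂[1, 0] + p 1 • L !₂[0, 1] + g 0 := by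
    rw [← map_smul, ← map_smul, ← map_add, ← e, ← vadd_eq_add, ← g.map_vadd, vadd_eq_add, add_zero]
  rw [e2]
  simp only [PiLp.add_apply, PiLp.smul_apply, smul_eq_mul]
  constructor <;> ring

theorem sgn {s t a b : ℝ} (s0 : 0 ≤ s) (s1 : s ≤ 1) (t0 : 0 ≤ t) (t1 : t ≤ 1)
    (h1 : s * a + t * b ≤ 0) (h2 : s * a + t * b ≤ a) (h3 : s * a + t * b ≤ b)
    (h4 : s * a + t * b ≤ a + b) : (0 < a → s = 0) ∧ (a < 0 → s = 1) := by
  rcases le_total 0 b with h | h <;> constructor <;> intro ha <;> nlinarith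

theorem grid_of {S : Set (ℤ × ℤ)} (g : Plane ≃ᵃⁱ[ℝ] Plane) (γ : ℤ × ℤ → ℤ × ℤ)
    (hγ : ∀ c p, p ∈ cell c ↔ g p ∈ cell (γ c)) :
    (∀ c, c ∈ S ↔ γ c ∈ γ '' S) ∧ g '' reg S = reg (γ '' S) := by
  refine ⟨fun c => ⟨mem_image_of_mem γ, fun ⟨d, h1, h2⟩ => ?_⟩, ?_⟩
  · exact eq_of_oc (ctr_mem c) ((hγ d _).2 (h2 ▸ (hγ c _).1 (oc_sub c (ctr_mem c)))) ▸ h1
  · ext p
    obtain ⟨p, rfl⟩ := g.surjective p
    simp only [g.injective.mem_set_image, mem_reg, exists_mem_image, ← hγ]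

theorem one_cell {ε m : ℤ} (h : ε = 1 ∨ ε = -1) : ∃ e : ℤ, ∀ (c : ℤ) (x : ℝ),
    ((c : ℝ) ≤ x ∧ x ≤ c + 1) ↔ ((ε * c + e : ℤ) : ℝ) ≤ ε * x + m ∧ ε * x + m ≤ (ε * c + e : ℤ) + 1 := by
  rcases h with rfl | rfl
  · exact ⟨m, fun c x => by push_cast; constructor <;> rintro ⟨_, _⟩ <;> constructor <;> linarith⟩
  · exact ⟨m - 1, fun c x => by
      push_cast; constructor <;> rintro ⟨_, _⟩ <;> constructor <;> linarith⟩

theorem unit_int {a s o : ℝ} {c i : ℤ} (ha : a ^ 2 = 1) (h : (0 < a → s = 0) ∧ (a < 0 → s = 1))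
    (e : o + (c + s) * a = i) : ∃ ε m : ℤ, (ε = 1 ∨ ε = -1) ∧ a = ε ∧ o = m := by
  rcases mul_self_eq_one_iff.1 ((sq a).symm.trans ha) with rfl | rfl
  · exact ⟨1, i - c, .inl rfl, by simp, by rw [h.1 one_pos] at e; push_cast; linarith⟩
  · exact ⟨-1, i + c + 1, .inr rfl, by simp, by rw [h.2 (by simp)] at e; push_cast; linarith⟩

/-- a square through a grid point that avoids three of the four cells there lies on the grid -/
theorem align (S : Set (ℤ × ℤ)) (g : Plane ≃ᵃⁱ[ℝ] Plane) {c : ℤ × ℤ} {i j : ℤ} {q : Plane}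
    (hq : q ∈ cell c) (h0 : g q 0 = i) (h1 : g q 1 = j)
    (h : ∀ i' j', i' = i - 1 ∨ i' = i → j' = j - 1 ∨ j' = j → i' < i ∨ j' < j →
      ∀ p ∈ oc c, g p ∉ oc (i', j')) : ∃ T, Cg S T ∧ g '' reg S = reg T := by
  obtain ⟨o0, o1, a0, a1, b0, b1, ha, hb, hab, hg⟩ := coords g
  have h2 : ∀ i' j', i' = i - 1 ∨ i' = i → j' = j - 1 ∨ j' = j → i' < i ∨ j' < j →
      ∀ p ∈ oc c, g p ∉ cell (i', j') := fun i' j' a b d p hp hp' =>
    disjoint_left.1 (Disjoint.closure_right (t := g.toHomeomorph ⁻¹' oc (i', j'))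
      (disjoint_left.2 (h i' j' a b d)) (oc_open c)) hp
      (g.toHomeomorph.preimage_closure _ ▸ cell_sub _ hp')
  obtain ⟨q1, q2, q3, q4⟩ := hq
  have cg : ∀ k, Continuous fun p => g p k := fun k =>
    (by fun_prop : Continuous fun p : Plane => p k).comp g.continuous
  have h3 : ∀ p ∈ cell c, (i : ℝ) ≤ g p 0 ∧ (j : ℝ) ≤ g p 1 := fun p hp => by
    refine closure_minimal (t := {p | (i : ℝ) ≤ g p 0 ∧ (j : ℝ) ≤ g p 1}) ?_
      (.and (isClosed_le continuous_const (cg 0)) (isClosed_le continuous_const (cg 1)))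
      (cell_sub c hp)
    rintro p ⟨p1, p2, p3, p4⟩
    have m := fun i' j' a b d => h2 i' j' a b d ((1 / 2 : ℝ) • (p + q)) (by
      simp only [oc, mem_ofPred_eq, PiLp.add_apply, PiLp.smul_apply, smul_eq_mul]
      refine ⟨?_, ?_, ?_, ?_⟩ <;> linarith)
    have bd : ∀ a b : ℝ, a ^ 2 ≤ 1 → b ^ 2 ≤ 1 → |(p 0 - q 0) * a + (p 1 - q 1) * b| ≤ 2 := by
      intro a b ha hb
      have e1 : |(p 0 - q 0) * a| ≤ 1 := abs_mul (p 0 - q 0) a ▸ mul_le_one₀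
        (abs_le.2 ⟨by linarith, by linarith⟩) (abs_nonneg _) (sq_le_one_iff_abs_le_one _ |>.1 ha)
      have e2 : |(p 1 - q 1) * b| ≤ 1 := abs_mul (p 1 - q 1) b ▸ mul_le_one₀
        (abs_le.2 ⟨by linarith, by linarith⟩) (abs_nonneg _) (sq_le_one_iff_abs_le_one _ |>.1 hb)
      linarith [abs_add_le ((p 0 - q 0) * a) ((p 1 - q 1) * b)]
    obtain ⟨d1, d2⟩ := abs_le.1 (bd a0 b0 (by nlinarith) (by nlinarith))
    obtain ⟨d3, d4⟩ := abs_le.1 (bd a1 b1 (by nlinarith) (by nlinarith))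
    simp only [cell, mem_ofPred_eq, hg, PiLp.add_apply, PiLp.smul_apply, smul_eq_mul] at m h0 h1 ⊢
    by_contra hn
    rcases lt_or_ge (o0 + p 0 * a0 + p 1 * b0) i with e1 | e1 <;>
      rcases lt_or_ge (o1 + p 0 * a1 + p 1 * b1) j with e2 | e2
    · exact m (i - 1) (j - 1) (.inl rfl) (.inl rfl) (by omega) (by
        push_cast; refine ⟨?_, ?_, ?_, ?_⟩ <;> linarith)
    · exact m (i - 1) j (.inl rfl) (.inr rfl) (by omega) (by
        push_cast; refine ⟨?_, ?_, ?_, ?_⟩ <;> linarith)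
    · exact m i (j - 1) (.inr rfl) (.inl rfl) (by omega) (by
        push_cast; refine ⟨?_, ?_, ?_, ?_⟩ <;> linarith)
    · exact hn ⟨e1, e2⟩
  have v1 := h3 !₂[c.1, c.2] (by simp [cell])
  have v2 := h3 !₂[c.1 + 1, c.2] (by simp [cell])
  have v3 := h3 !₂[c.1, c.2 + 1] (by simp [cell])
  have v4 := h3 !₂[c.1 + 1, c.2 + 1] (by simp [cell])
  simp only [hg, Matrix.cons_val_zero, Matrix.cons_val_one] at v1 v2 v3 v4 h0 h1
  obtain ⟨s, hs⟩ : ∃ s, q 0 = c.1 + s := ⟨q 0 - c.1, by ring⟩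
  obtain ⟨t, ht⟩ : ∃ t, q 1 = c.2 + t := ⟨q 1 - c.2, by ring⟩
  rw [hs] at q1 q2 h0 h1
  rw [ht] at q3 q4 h0 h1
  have s1 := sgn (s := s) (t := t) (a := a0) (b := b0) (by linarith) (by linarith) (by linarith)
    (by linarith) (by linarith [v1.1]) (by linarith [v2.1]) (by linarith [v3.1]) (by linarith [v4.1])
  have s2 := sgn (s := s) (t := t) (a := a1) (b := b1) (by linarith) (by linarith) (by linarith)
    (by linarith) (by linarith [v1.2]) (by linarith [v2.2]) (by linarith [v3.2]) (by linarith [v4.2])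
  have s3 := sgn (s := t) (t := s) (a := b0) (b := a0) (by linarith) (by linarith) (by linarith)
    (by linarith) (by linarith [v1.1]) (by linarith [v3.1]) (by linarith [v2.1]) (by linarith [v4.1])
  have s4 := sgn (s := t) (t := s) (a := b1) (b := a1) (by linarith) (by linarith) (by linarith)
    (by linarith) (by linarith [v1.2]) (by linarith [v3.2]) (by linarith [v2.2]) (by linarith [v4.2])
  have nn : ∀ {s a b : ℝ}, (0 < a → s = 0) ∧ (a < 0 → s = 1) → (0 < b → s = 0) ∧ (b < 0 → s = 1) →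
      0 ≤ a * b := fun h h' => le_of_not_gt fun e => by
    rcases mul_neg_iff.1 e with ⟨e1, e2⟩ | ⟨e1, e2⟩
    exacts [zero_ne_one ((h.1 e1).symm.trans (h'.2 e2)), zero_ne_one ((h'.1 e2).symm.trans (h.2 e1))]
  have z : a0 * a1 = 0 := by
    have : a0 * a1 + b0 * b1 = 0 := by
      linear_combination (a0 * b1 + a1 * b0) * hab - a0 * a1 * hb - b0 * b1 * ha
    linarith [nn s1 s2, nn s3 s4]
  rcases mul_eq_zero.1 z with rfl | rfl
  · obtain rfl : b1 = 0 := by linear_combination a1 * hab - b1 * ha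
    obtain ⟨ε, m, e1, rfl, rfl⟩ := unit_int (o := o0) (c := c.2) (i := i) (by simpa using hb) s3
      (by linarith)
    obtain ⟨η, n, e2, rfl, rfl⟩ := unit_int (o := o1) (c := c.1) (i := j) (by simpa using ha) s2
      (by linarith)
    obtain ⟨e, he⟩ := one_cell (m := m) e1
    obtain ⟨f, hf⟩ := one_cell (m := n) e2
    obtain ⟨k1, k2⟩ := grid_of (S := S) g (fun c => (ε * c.2 + e, η * c.1 + f)) fun c p => by
      rw [cell, cell, mem_ofPred_eq, mem_ofPred_eq, ← and_assoc, ← and_assoc (a := _ ≤ g p 0),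
        and_comm, he c.2, hf c.1, (hg p).1, (hg p).2]
      ring_nf
    exact ⟨_, ⟨ε, η, e, f, e1, e2, .inr fun x y => k1 (x, y)⟩, k2⟩
  · obtain rfl : b0 = 0 := by linear_combination a0 * hab - b0 * ha
    obtain ⟨ε, m, e1, rfl, rfl⟩ := unit_int (o := o0) (c := c.1) (i := i) (by simpa using ha) s1
      (by linarith)
    obtain ⟨η, n, e2, rfl, rfl⟩ := unit_int (o := o1) (c := c.2) (i := j) (by simpa using hb) s4
      (by linarith)
    obtain ⟨e, he⟩ := one_cell (m := m) e1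
    obtain ⟨f, hf⟩ := one_cell (m := n) e2
    obtain ⟨k1, k2⟩ := grid_of (S := S) g (fun c => (ε * c.1 + e, η * c.2 + f)) fun c p => by
      rw [cell, cell, mem_ofPred_eq, mem_ofPred_eq, ← and_assoc, ← and_assoc (a := _ ≤ g p 0),
        he c.1, hf c.2, (hg p).1, (hg p).2]
      ring_nf
    exact ⟨_, ⟨ε, η, e, f, e1, e2, .inl fun x y => k1 (x, y)⟩, k2⟩

section sweep

variable {S : Set (ℤ × ℤ)} {ι : Type} [Finite ι] {g : ι → Plane ≃ᵃⁱ[ℝ] Plane} {w μ : ℝ}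
  (hS : S.Finite) (hd : Pairwise fun k k' => Disjoint (interior (g k '' reg S))
    (interior (g k' '' reg S)))
  (hin : ∀ p : Plane, 0 ≤ p 0 → p 0 ≤ w → 0 ≤ p 1 → p 1 ≤ μ → ∃ k, p ∈ g k '' reg S)
  (hout : ∀ k, ∀ p ∈ g k '' reg S, 0 ≤ p 1 ∧ (p 1 < μ → -μ < p 0 → p 0 < w + μ → 0 ≤ p 0 ∧ p 0 ≤ w))
include hS hd hin hout

theorem sweep (j : ℕ) (hj : (j : ℝ) + 1 ≤ μ) (i : ℕ) (hi : (i : ℝ) < w) :
    ∃ k T, (Cg S T ∧ g k '' reg S = reg T) ∧ ((i : ℤ), (j : ℤ)) ∈ T := by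
  induction j using Nat.strong_induction_on generalizing i with | _ j ihj
  induction i using Nat.strong_induction_on with | _ i ihi
  let q : ℝ → Plane := fun t => !₂[(i : ℝ) + t, (j : ℝ) + t]
  have c1 : IsClosed (⋃ k, ⋃ c ∈ {c ∈ S | q 0 ∉ g k '' cell c}, g k '' cell c) :=
    isClosed_iUnion_of_finite fun k => (hS.subset (sep_subset _ _)).isClosed_biUnion fun c _ =>
      (g k).toHomeomorph.isClosedMap _ (cell_closed c)
  have c2 : ContinuousAt q 0 := by fun_prop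
  obtain ⟨t, ⟨t1, t2⟩, t3⟩ := (((c2.eventually (c1.isOpen_compl.mem_nhds (by simp))).and
    (eventually_lt_nhds (lt_min one_pos (sub_pos.2 hi)))).filter_mono
    (nhdsWithin_le_nhds (s := Ioi 0))).and self_mem_nhdsWithin |>.exists
  have t4 : 0 < t := t3
  rw [lt_min_iff] at t2
  have t5 : q t ∈ oc (i, j) := by
    simp only [q, oc, mem_ofPred_eq, Matrix.cons_val_zero, Matrix.cons_val_one, Int.cast_natCast]
    refine ⟨?_, ?_, ?_, ?_⟩ <;> linarith [t2.1]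
  have i0 : (0 : ℝ) ≤ i := i.cast_nonneg
  have j0 : (0 : ℝ) ≤ j := j.cast_nonneg
  obtain ⟨k, hk⟩ := hin (q t) (by simp only [q, Matrix.cons_val_zero]; linarith)
    (by simp only [q, Matrix.cons_val_zero]; linarith [t2.2])
    (by simp only [q, Matrix.cons_val_zero, Matrix.cons_val_one]; linarith)
    (by simp only [q, Matrix.cons_val_zero, Matrix.cons_val_one]; linarith [t2.1])
  by_cases hA : ∃ T, Cg S T ∧ g k '' reg S = reg T
  · obtain ⟨T, h1, h2⟩ := hA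
    obtain ⟨d, h3, h4⟩ := mem_reg.1 (h2 ▸ hk)
    exact ⟨k, T, ⟨h1, h2⟩, eq_of_oc t5 h4 ▸ h3⟩
  obtain ⟨p, hp, e⟩ := hk
  obtain ⟨c, hc, hp⟩ := mem_reg.1 hp
  obtain ⟨q', h1, h2⟩ : q 0 ∈ g k '' cell c := by
    by_contra h
    exact t1 (mem_iUnion.2 ⟨k, mem_biUnion (s := {c ∈ S | q 0 ∉ g k '' cell c}) ⟨hc, h⟩ ⟨p, hp, e⟩⟩)
  refine absurd (align S (g k) (i := i) (j := j) h1 (by simp [h2, q]) (by simp [h2, q])
    fun i' j' a1 a2 a3 p hp hp' => ?_) hA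
  have m : g k p ∈ interior (g k '' reg S) :=
    (g k).toHomeomorph.image_interior _ ▸ mem_image_of_mem _ (oc_int hc hp)
  obtain ⟨o1, o2⟩ := hout k _ (interior_subset m)
  have b1 : (i : ℝ) - 1 ≤ i' := by exact_mod_cast (by omega : (i : ℤ) - 1 ≤ i')
  have b2 : (i' : ℝ) ≤ i := by exact_mod_cast (by omega : i' ≤ (i : ℤ))
  have b3 : (j' : ℝ) ≤ j := by exact_mod_cast (by omega : j' ≤ (j : ℤ))
  obtain ⟨p1, p2, p3, p4⟩ := id hp'
  simp only at p1 p2 p3 p4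
  have o3 := (o2 (by linarith) (by linarith) (by linarith)).1
  lift i' to ℕ using Int.lt_add_one_iff.1 ((Int.cast_lt (R := ℝ)).1 (by push_cast; linarith))
  lift j' to ℕ using Int.lt_add_one_iff.1 ((Int.cast_lt (R := ℝ)).1 (by push_cast; linarith))
  push_cast at b2 b3
  obtain ⟨k', T, ⟨h3, h4⟩, h5⟩ : ∃ k T, (Cg S T ∧ g k '' reg S = reg T) ∧
      ((i' : ℤ), (j' : ℤ)) ∈ T := by
    rcases lt_or_ge j' j with h | h
    · exact ihj j' h (by linarith) i' (by linarith)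
    · obtain rfl : j' = j := by omega
      exact ihi i' (by omega) (by linarith)
  exact disjoint_left.1 (hd (fun e : k = k' => hA ⟨T, h3, e ▸ h4⟩)) m (h4 ▸ oc_int h5 hp')

theorem wall_of {l r b t D : ℤ} (B : Box S l r b t) (h1 : r - l < D) (h2 : t - b < D)
    (hμ : 2 * D + 1 ≤ μ) : ∃ F, Wall S F ⌈w⌉ D := by
  refine ⟨{T | ∃ k, (Cg S T ∧ g k '' reg S = reg T) ∧
    ∃ x y, 0 ≤ x ∧ x < ⌈w⌉ ∧ 0 ≤ y ∧ y < D ∧ (x, y) ∈ T}, fun T ⟨_, h, _⟩ => h.1, ?_, ?_, ?_⟩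
  · rintro T ⟨k, ⟨-, h⟩, -⟩ T' ⟨k', ⟨-, h'⟩, -⟩ p hp hp'
    obtain rfl : k = k' := by
      by_contra e
      exact disjoint_left.1 (hd e) (h ▸ oc_int hp (ctr_mem p)) (h' ▸ oc_int hp' (ctr_mem p))
    exact Set.ext fun c => by rw [← ctr_reg, ← h, h', ctr_reg]
  · rintro T ⟨k, ⟨h, h'⟩, x, y, a1, a2, a3, a4, a5⟩ p hp
    obtain ⟨o1, o2⟩ := hout k _ (h' ▸ ctr_reg.2 hp)
    obtain ⟨l', r', b', t', B'⟩ := h.box B
    have := B'.bd _ a5
    have := B'.bd _ hp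
    obtain ⟨b1, b2, b3⟩ : p.2 + 1 ≤ 2 * D ∧ -D ≤ p.1 ∧ p.1 + 1 ≤ x + D := by
      obtain ⟨_, _, ⟨_, _, -⟩ | ⟨_, _, -⟩⟩ := h.form B B' <;> omega
    have c0 : (0 : ℝ) < D := by exact_mod_cast a3.trans_lt a4
    have c1 := (Int.cast_le (R := ℝ)).2 b1
    have c2 := (Int.cast_le (R := ℝ)).2 b2
    have c3 := (Int.cast_le (R := ℝ)).2 b3
    have c4 := Int.lt_ceil.1 a2
    push_cast at c1 c2 c3
    simp only [ctr, Matrix.cons_val_zero, Matrix.cons_val_one] at o1 o2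
    obtain ⟨o3, o4⟩ := o2 (by linarith) (by linarith) (by linarith)
    exact ⟨Int.lt_add_one_iff.1 ((Int.cast_lt (R := ℝ)).1 (by push_cast; linarith)),
      Int.lt_ceil.2 (by linarith),
      Int.lt_add_one_iff.1 ((Int.cast_lt (R := ℝ)).1 (by push_cast; linarith))⟩
  · intro x y a1 a2 a3 a4
    lift x to ℕ using a1
    lift y to ℕ using a3
    have c1 := (Int.cast_le (R := ℝ)).2 (by omega : (y : ℤ) ≤ 2 * D)
    push_cast at c1
    obtain ⟨k, T, h, h'⟩ := sweep hS hd hin hout y (by linarith) x (by simpa using Int.lt_ceil.1 a2)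
    exact ⟨T, ⟨k, h, x, y, by omega, a2, by omega, a4, h'⟩, h'⟩

end sweep

end Pool.Agent.Lib.MP_6717ce_co
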